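import Mathlib
import Pool.Agent.TH497.PW.IntFlow
import Pool.Agent.TH362.FP.Pos
import Pool.Agent.Y335.FL.Main
import Pool.Agent.N393.CF.Main

set_option autoImplicit false

/-!
# Nowhere-zero 5-flows in graphs of circumference at most 45 (MP_c8786f_co)

Every bridgeless multigraph without circuits of length at least `46` has a nowhere-zero 5-flow, and
the characteristic polynomial of its bond matroid is positive at all integers `q ≥ 5`.  The order,
the degrees and the connectivity are arbitrary.

Proof.  The class is closed under contractions: a circuit of `G / e` can be lifted to a circuit of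
`G` which is not shorter.  Let `G` be a counterexample with as few edges as possible.  Circuits with
at most eleven edges can be contracted (library `Y335/FL` of helper335), and so can one of two edges
which form a cut; hence `G` is simple, has girth at least twelve, and all degrees are at least three
(apart from isolated vertices).  It remains to show that such a graph has a circuit of length at
least `46`.

Let `v_0, ..., v_m` be a longest path, let `T` be the set of the vertices `v_i` with `i ≥ 5` and let
`K` be the component of `G - T` which contains `v_4`.  All paths of `K` from `v_4` have length at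
most four, and as the girth is at least twelve `K` is a tree.  All neighbours outside of `K` of the
vertices of `K` are in `T`.  If `y` in `K` is adjacent to `v_a`, `a ≥ 5`, then `a ≤ 48 - d`, where
`d` is the distance of `v_4` and `y`, as there is no circuit with more than `45` vertices.  Let `z`
be a vertex of `K`.  If `y` and `y'` are adjacent to `v_a` and `v_b` and their distances from `z` are
`5 - r` and `5 - s`, then `a` and `b` differ by at least `r + s`, because otherwise there would be a
circuit with at most eleven edges.  So the intervals `[a - r, a + r)` are disjoint.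

(1) `z = v_2`: the lengths of the intervals add up to at most `49`.  Counting the neighbours of the
vertices of `K` level by level one obtains that the sum is at least `50 + 2 c_1 - 2 c_3`, where `c_i`
is the number of the vertices of `K` at distance `i` from `v_4` which `v_3` does not separate from
`v_4`.  So `c_1 < c_3`, hence `c_1, c_2 ≥ 1` and `c_3 ≥ 2`.

(2) `z = v_4`: the lengths of the intervals add up to at most `53`.  But the sum is at least
`30 + 6 (1 + c_1) + 4 (1 + c_2) + 2 (1 + c_3) ≥ 56`.
-/

namespace Pool.Agent.Results.MP_c8786f_co.Circumference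

open Pool.Agent.TH497.PW

variable {V E : Type}

/-- The edges with exactly one end in `X`. -/
def boundary [DecidableEq V] [Fintype E] (src dst : E → V) (X : Finset V) : Finset E :=
  Finset.univ.filter (fun e => ¬ (src e ∈ X ↔ dst e ∈ X))

/-- Kirchhoff's law. -/
def IsFlow [DecidableEq V] [Fintype E] (src dst : E → V) (f : E → ℤ) : Prop :=
  ∀ v : V, ∑ e ∈ Finset.univ.filter (fun e => src e = v), f e
    = ∑ e ∈ Finset.univ.filter (fun e => dst e = v), f e

/-- The number of the components of the graph with the vertices `V` and the edges `A`. -/
noncomputable def components (src dst : E → V) (A : Finset E) : ℕ :=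
  Nat.card (SimpleGraph.fromRel
    (fun u v : V => ∃ e ∈ A, src e = u ∧ dst e = v)).ConnectedComponent

/-- The rank of `A` in the cycle matroid of the graph. -/
noncomputable def cycleRank [Fintype V] (src dst : E → V) (A : Finset E) : ℕ :=
  Fintype.card V - components src dst A

/-- The rank of `A` in the bond matroid of the graph (the dual of the cycle matroid). -/
noncomputable def bondRank [Fintype V] [Fintype E] [DecidableEq E] (src dst : E → V)
    (A : Finset E) : ℕ :=
  A.card + cycleRank src dst Aᶜ - cycleRank src dst Finset.univ

/-- The characteristic polynomial of the bond matroid at the integer `x`. -/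
noncomputable def bondCharPoly [Fintype V] [Fintype E] [DecidableEq E] (src dst : E → V)
    (x : ℤ) : ℤ :=
  ∑ A : Finset E, (-1) ^ A.card * x ^ (bondRank src dst Finset.univ - bondRank src dst A)

theorem isFlow_iff [DecidableEq V] [Fintype E] (src dst : E → V) (f : E → ℤ) :
    IsFlow src dst f ↔
      ∀ v, ∑ e, f e * ((if src e = v then 1 else 0) - (if dst e = v then 1 else 0)) = 0 := by
  unfold IsFlow
  refine forall_congr' fun v => ?_
  rw [Finset.sum_filter, Finset.sum_filter, ← sub_eq_zero, ← Finset.sum_sub_distrib]
  have : ∀ e, (if src e = v then f e else 0) - (if dst e = v then f e else 0)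
      = f e * ((if src e = v then 1 else 0) - (if dst e = v then 1 else 0)) := by
    intro e
    by_cases h1 : src e = v <;> by_cases h2 : dst e = v <;> simp [h1, h2]
  rw [Finset.sum_congr rfl (fun e _ => this e)]

theorem nzf [Fintype V] [DecidableEq V] [Fintype E] [DecidableEq E] (src dst : E → V)
    (h : Pool.Agent.TH676.Z.FlowOn src dst ∅ ∅) : NZF src dst := by
  obtain ⟨f, h1, _, h3⟩ := h
  refine ⟨f, fun e => h3 e (Finset.notMem_empty _) (Finset.notMem_empty _), fun x => ?_⟩
  rw [← h1 x]
  unfold Pool.Agent.TH676.Z.bd
  refine Finset.sum_congr rfl fun e _ => ?_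
  unfold ic
  by_cases h4 : src e = x <;> by_cases h5 : dst e = x <;> simp [h4, h5]

theorem charPoly_pos [Fintype V] [DecidableEq V] [Fintype E] [DecidableEq E] (src dst : E → V)
    (f : E → ℤ) (h1 : IsFlow src dst f) (h2 : ∀ e, 1 ≤ |f e| ∧ |f e| ≤ 4) (q : ℕ) (hq : 5 ≤ q) :
    0 < bondCharPoly src dst q :=
  Pool.Agent.TH362.FP.chr_pos src dst f h2 h1 q hq

/-- The graph has a circuit with `n` vertices: there are `n` different vertices
`v 0, ..., v (n - 1)` such that an edge joins `v i` and `v (i + 1)` for each `i`, where the indices
are read modulo `n`. -/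
def HasCircuit (src dst : E → V) (n : ℕ) : Prop :=
  ∃ v : ℕ → V, (∀ i < n, ∀ j < n, v i = v j → i = j) ∧
    ∀ i < n, ∃ e, (src e = v i ∧ dst e = v ((i + 1) % n)) ∨
      (src e = v ((i + 1) % n) ∧ dst e = v i)

theorem result :
    ∀ (V E : Type) [Fintype V] [DecidableEq V] [Fintype E] [DecidableEq E] (src dst : E → V),
      (∀ n, 45 < n → ¬ HasCircuit src dst n) →
      (∀ Y : Finset V, (boundary src dst Y).card ≠ 1) →
      (∃ f : E → ℤ, IsFlow src dst f ∧ ∀ e, 1 ≤ |f e| ∧ |f e| ≤ 4) ∧
      ∀ q : ℕ, 5 ≤ q → 0 < bondCharPoly src dst q := by
  intro V E _ _ _ _ src dst hc hb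
  have hbr : Pool.Agent.TH676.Z.Br src dst ∅ ∅ := fun Y _ => by
    rw [Finset.sdiff_empty]; exact hb Y
  have hfl : Pool.Agent.TH676.Z.FlowOn src dst ∅ ∅ :=
    Pool.Agent.N393.CF.flow_of_ClC Pool.Agent.Y335.FL.contract_all src dst
      (Pool.Agent.N393.CF.ClC.of fun n hn v hv => hc n hn ⟨v, hv⟩) hbr
  obtain ⟨F, hF, hF0⟩ := int_flow src dst (nzf src dst hfl)
  have hF1 := (isFlow_iff src dst F).mpr hF0
  exact ⟨⟨F, hF1, hF⟩, fun q hq => charPoly_pos src dst F hF1 hF q hq⟩

end Pool.Agent.Results.MP_c8786f_co.Circumference
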