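import Mathlib
import Pool.Agent.N470.FZ.Cyc
import Pool.Agent.TH362.FP.Pos

set_option autoImplicit false

/-!
# 5-flows of bridgeless graphs with few zeros (MP_c8786f_co)

Let `G` be a finite multigraph with nonnegative weights `w` on the edges and let `C_1, ..., C_m` be
cycles (supports of integer flows with values in `{0, 1, -1}`), each with at most eleven edges
outside the union of the earlier ones; `m = 0` is allowed.  Suppose that no edge cut which avoids
`F = C_1 ∪ ... ∪ C_m` has exactly one edge.  Then `G` has an integer flow `f` with `|f| ≤ 4` whose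
zeros have weight at most `11 / 210` of the weight of `E ∖ F`.  So the characteristic polynomial of
the bond matroid of `G` becomes positive at all integers `q ≥ 5` after the contraction (in the bond
matroid; deletion in `G`) of the set of zeros of `f`.

Proof.  (1) Cubic graphs without bridges.  Let `M_1, M_2, M_3` be perfect matchings with
`w(M_1 ∩ M_2) ≤ w(E) / 15` and `w(M_1 ∩ M_2 ∩ M_3) ≤ w(M_1 ∩ M_2) / 7` (Kaiser, Kral and Norine;
Edmonds' perfect matching polytope) and let `φ_i` be a flow with the values `1, -1` outside `M_i`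
and zero on `M_i`.  The flow `H = 10 φ_1 + 5 φ_2 + φ_3` is the sum of four integer flows `g_i` with
`|4 g_i - H| ≤ 3` (an integer flow `H` is the sum of two flows which differ from `H / 2` by at most
`1 / 2`: orient the edges with odd values along closed trails; do this twice).  Since `|H| ≤ 16`
everywhere and `|H| ≥ 4` outside `M_1 ∩ M_2`, all `|g_i| ≤ 4` and all `g_i` are nonzero outside
`M_1 ∩ M_2`; on `M_1 ∩ M_2` outside `M_3` three of them are zero, and all four on
`M_1 ∩ M_2 ∩ M_3`.  The best one has zeros of weight at most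
`(3 w(M_1 ∩ M_2) + w(M_1 ∩ M_2 ∩ M_3)) / 4 ≤ 11 w(E) / 210`.

(2) Bridgeless multigraphs: replace each vertex by a circuit through its darts, whose edges have
weight zero.

(3) The cycles: apply (2) to the graph in which `F` is contracted and undo the contractions by the
starting files (`Y335/FL`: cycles with at most eleven new edges), the zeros being free edges.
-/

namespace Pool.Agent.Results.MP_c8786f_co.FewZeros

variable {V E : Type}

/-- The edges with exactly one end in `X`. -/
def boundary [DecidableEq V] [Fintype E] (src dst : E → V) (X : Finset V) : Finset E :=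
  Finset.univ.filter (fun e => ¬ (src e ∈ X ↔ dst e ∈ X))

/-- Kirchhoff's law. -/
def IsFlow [DecidableEq V] [Fintype E] (src dst : E → V) (f : E → ℤ) : Prop :=
  ∀ v : V, ∑ e ∈ Finset.univ.filter (fun e => src e = v), f e
    = ∑ e ∈ Finset.univ.filter (fun e => dst e = v), f e

/-- The number of the components of the graph with the vertices `V` and the edges `A`. -/
noncomputable def components (src dst : E → V) (A : Finset E) : ℕ :=
  Nat.card (SimpleGraph.fromRel
    (fun u v : V => ∃ e ∈ A, src e = u ∧ dst e = v)).ConnectedComponent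

/-- The rank of `A` in the cycle matroid of the graph. -/
noncomputable def cycleRank [Fintype V] (src dst : E → V) (A : Finset E) : ℕ :=
  Fintype.card V - components src dst A

/-- The rank of `A` in the bond matroid of the graph (the dual of the cycle matroid). -/
noncomputable def bondRank [Fintype V] [Fintype E] [DecidableEq E] (src dst : E → V)
    (A : Finset E) : ℕ :=
  A.card + cycleRank src dst Aᶜ - cycleRank src dst Finset.univ

/-- The characteristic polynomial of the bond matroid at the integer `x`. -/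
noncomputable def bondCharPoly [Fintype V] [Fintype E] [DecidableEq E] (src dst : E → V)
    (x : ℤ) : ℤ :=
  ∑ A : Finset E, (-1) ^ A.card * x ^ (bondRank src dst Finset.univ - bondRank src dst A)

theorem isFlow_iff [DecidableEq V] [Fintype E] (src dst : E → V) (f : E → ℤ) :
    IsFlow src dst f ↔
      ∀ v, ∑ e, f e * ((if src e = v then 1 else 0) - (if dst e = v then 1 else 0)) = 0 := by
  unfold IsFlow
  refine forall_congr' fun v => ?_
  rw [Finset.sum_filter, Finset.sum_filter, ← sub_eq_zero, ← Finset.sum_sub_distrib]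
  have : ∀ e, (if src e = v then f e else 0) - (if dst e = v then f e else 0)
      = f e * ((if src e = v then 1 else 0) - (if dst e = v then 1 else 0)) := by
    intro e
    by_cases h1 : src e = v <;> by_cases h2 : dst e = v <;> simp [h1, h2]
  rw [Finset.sum_congr rfl (fun e _ => this e)]

theorem charPoly_pos [Fintype V] [DecidableEq V] [Fintype E] [DecidableEq E] (src dst : E → V)
    (f : E → ℤ) (h1 : IsFlow src dst f) (h2 : ∀ e, 1 ≤ |f e| ∧ |f e| ≤ 4) (q : ℕ) (hq : 5 ≤ q) :
    0 < bondCharPoly src dst q :=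
  Pool.Agent.TH362.FP.chr_pos src dst f h2 h1 q hq

/-- the reduction modulo five of a flow with values in `{0, 1, -1}` -/
theorem mod5 [Fintype V] [DecidableEq V] [Fintype E] [DecidableEq E] (src dst : E → V)
    (C : Finset E) (h : ∃ z : E → ℤ, IsFlow src dst z ∧ (∀ e, z e = 0 ∨ z e = 1 ∨ z e = -1) ∧
      ∀ e, z e ≠ 0 ↔ e ∈ C) :
    ∃ z : E → ZMod 5, (∀ v, Pool.Agent.TH676.Z.bd src dst z v = 0) ∧
      (∀ e, z e = 0 ∨ z e = 1 ∨ z e = -1) ∧ ∀ e, z e ≠ 0 ↔ e ∈ C := by
  obtain ⟨z, h1, h2, h3⟩ := h
  refine ⟨fun e => ((z e : ℤ) : ZMod 5), fun v => ?_, fun e => ?_, fun e => ?_⟩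
  · have h4 := h1 v
    rw [Finset.sum_filter, Finset.sum_filter, ← sub_eq_zero, ← Finset.sum_sub_distrib] at h4
    have h5 := congrArg (fun t : ℤ => (t : ZMod 5)) h4
    simp only [Int.cast_sum, Int.cast_sub, Int.cast_zero] at h5
    refine Eq.trans ?_ h5
    unfold Pool.Agent.TH676.Z.bd
    rw [Finset.sum_sub_distrib, Finset.sum_sub_distrib]
    congr 1 <;>
    · refine Finset.sum_congr rfl fun e _ => ?_
      split_ifs <;> simp
  · rcases h2 e with h | h | h <;> simp [h]
  · rw [← h3 e]
    have h10 : (1 : ZMod 5) ≠ 0 := by decide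
    rcases h2 e with h | h | h <;> simp [h, h10]

/-- the deletion of the zeros -/
theorem restrict [Fintype V] [DecidableEq V] [Fintype E] [DecidableEq E] (src dst : E → V)
    (f : E → ℤ) (h : IsFlow src dst f) :
    IsFlow (fun e : {e : E // f e ≠ 0} => src e) (fun e : {e : E // f e ≠ 0} => dst e)
      (fun e => f e) := by
  rw [isFlow_iff] at h ⊢
  intro v
  refine Eq.trans (Pool.Agent.N470.FZ.sum_sub (fun e => f e ≠ 0)
    (fun e => f e * ((if src e = v then 1 else 0) - (if dst e = v then 1 else 0))) ?_) (h v)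
  intro e he
  rw [not_not.1 he, zero_mul]

theorem result :
    ∀ (V E : Type) [Fintype V] [DecidableEq V] [Fintype E] [DecidableEq E] (src dst : E → V)
      (m : ℕ) (C : Fin m → Finset E) (w : E → ℝ),
      (∀ i, ∃ z : E → ℤ, IsFlow src dst z ∧ (∀ e, z e = 0 ∨ z e = 1 ∨ z e = -1) ∧
        ∀ e, z e ≠ 0 ↔ e ∈ C i) →
      (∀ i, (C i \ (Finset.univ.filter (fun j => j < i)).biUnion C).card ≤ 11) →
      (∀ X : Finset V, Disjoint (boundary src dst X) (Finset.univ.biUnion C) →
        (boundary src dst X).card ≠ 1) →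
      (∀ e, 0 ≤ w e) →
      ∃ f : E → ℤ, IsFlow src dst f ∧ (∀ e, |f e| ≤ 4) ∧
        210 * ∑ e ∈ Finset.univ.filter (fun e => f e = 0), w e
          ≤ 11 * ∑ e ∈ Finset.univ \ Finset.univ.biUnion C, w e ∧
        ∀ q : ℕ, 5 ≤ q → 0 < bondCharPoly (fun e : {e : E // f e ≠ 0} => src e)
          (fun e : {e : E // f e ≠ 0} => dst e) q := by
  intro V E _ _ _ _ src dst m C w hC hcard hb hw
  obtain ⟨f, hf1, hf2, hf3⟩ := Pool.Agent.N470.FZ.main src dst m C
    (fun i => mod5 src dst (C i) (hC i)) hcard hb w hw
  have hf : IsFlow src dst f := (isFlow_iff src dst f).mpr hf1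
  refine ⟨f, hf, hf2, hf3, fun q hq => ?_⟩
  refine charPoly_pos _ _ (fun e : {e : E // f e ≠ 0} => f e.1) (restrict src dst f hf)
    (fun e => ⟨?_, hf2 e.1⟩) q hq
  exact Int.one_le_abs e.2

/-- Bridgeless multigraphs. -/
theorem bridgeless (V E : Type) [Fintype V] [DecidableEq V] [Fintype E] [DecidableEq E]
    (src dst : E → V) (hb : ∀ X : Finset V, (boundary src dst X).card ≠ 1) :
    ∃ f : E → ℤ, IsFlow src dst f ∧ (∀ e, |f e| ≤ 4) ∧
      210 * (Finset.univ.filter (fun e => f e = 0)).card ≤ 11 * Fintype.card E := by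
  obtain ⟨f, h1, h2, h3, -⟩ := result V E src dst 0 (fun _ => ∅) (fun _ => 1)
    (fun i => i.elim0) (fun i => i.elim0) (fun X _ => hb X) (fun _ => zero_le_one)
  refine ⟨f, h1, h2, ?_⟩
  have h4 : Finset.univ \ Finset.univ.biUnion (fun _ : Fin 0 => (∅ : Finset E)) = Finset.univ := by
    simp
  rw [h4] at h3
  simp only [Finset.sum_const, nsmul_eq_mul, mul_one, Finset.card_univ] at h3
  exact_mod_cast h3

end Pool.Agent.Results.MP_c8786f_co.FewZeros
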