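import Mathlib
import Pool.Agent.TH497.PW.IntFlow
import Pool.Agent.TH362.FP.Pos
import Pool.Agent.Y335.FL.Main
import Pool.Agent.N410.FV.Ind

set_option autoImplicit false

/-!
# Nowhere-zero 5-flows: graphs without 51 independent three-edge-cuts (MP_c8786f_co)

Let `G` be a bridgeless multigraph in which two of any 51 pairwise disjoint sets of vertices with
exactly three boundary edges each are joined by an edge.  Then `G` has a nowhere-zero 5-flow, and the
characteristic polynomial of its bond matroid is positive at all integers `q ≥ 5`.  The order of `G`,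
the number of its disjoint three-edge-cuts, its independence number, its connectivity and its degrees
are not bounded.

With exceptions: let `2 a + σ ≤ 125` and `3 a + σ ≤ 150`.  It is sufficient that there is a set `S` of
`σ` vertices such that two of any `a + 1` pairwise disjoint sets of vertices outside `S` with exactly
three boundary edges are joined by an edge; or, more generally, that every family of pairwise disjoint
sets with three boundary edges has the last property after the deletion of at most `σ` members.
Only the sets are needed without boundary edges in the union `F` of a chain of cycles each of which has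
at most eleven edges outside of the union of the earlier ones.

Proof.  The edges of `F` are contracted (library `Y335/FL`).  Let `H` be a quotient of `G` without
nowhere-zero 5-flow all of whose proper quotients have such flows.  `H` has girth at least twelve, and
its degrees are at least three (apart from isolated vertices); every set of `k ≥ 2` vertices spans at
most `(5 k - 6) / 3` edges (`N410/FV/Dense`).  So the average degree of the `N` vertices of `H` which
are not isolated is `3 + y` with `0 ≤ y ≤ 1 / 3`, at least `n ≥ (1 - y) N` vertices have degree three,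
and `N ≥ 2 (1 + x + ... + x ^ 5)` for `x = 2 + y` by the Moore bound for irregular graphs.

Let `C` be the set of the vertices of degree three without `σ` exceptions.  For a vertex `v` let `P(v)`
be the set of the vertices which are joined to `v` by a path of length 1, 3 or 5.  It is independent and
has at least 63 elements.  As `w ∈ P(v)` iff `v ∈ P(w)`, the average of `|P(v) ∩ C|` is at least
`63 |C| / N`.  On the other hand `C` contains an independent set with at least `|C| / 3` elements,
or a set `Y` which is closed under adjacency, and then `P(v)` is a subset of `C` for `v ∈ Y`.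
If `C` has no independent set with more than `a` elements then it follows `63 (n - σ) ≤ a N` and
`n ≤ 3 a + σ ≤ 150`, which contradicts the inequalities above.
-/

namespace Pool.Agent.Results.MP_c8786f_co.IndependentThreeCuts

open Pool.Agent.TH497.PW

variable {V E : Type}

/-- The edges with exactly one end in `X`. -/
def boundary [DecidableEq V] [Fintype E] (src dst : E → V) (X : Finset V) : Finset E :=
  Finset.univ.filter (fun e => ¬ (src e ∈ X ↔ dst e ∈ X))

/-- Kirchhoff's law. -/
def IsFlow [DecidableEq V] [Fintype E] (src dst : E → V) (f : E → ℤ) : Prop :=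
  ∀ v : V, ∑ e ∈ Finset.univ.filter (fun e => src e = v), f e
    = ∑ e ∈ Finset.univ.filter (fun e => dst e = v), f e

/-- `X` has exactly three boundary edges, none of them in `F`. -/
def ThreeSet [DecidableEq V] [Fintype E] (src dst : E → V) (F : Finset E) (X : Finset V) : Prop :=
  (boundary src dst X).card = 3 ∧ Disjoint (boundary src dst X) F

/-- There is an edge between `X` and `Y`. -/
def Joined (src dst : E → V) (X Y : Finset V) : Prop :=
  ∃ e, (src e ∈ X ∧ dst e ∈ Y) ∨ (src e ∈ Y ∧ dst e ∈ X)

/-- Two of any `a + 1` members of the family `I` of sets of vertices are joined by an edge. -/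
def FewIndependent [DecidableEq V] (src dst : E → V) (a : ℕ) (I : Finset (Finset V)) : Prop :=
  ∀ K ⊆ I, K.card = a + 1 → ∃ X ∈ K, ∃ Y ∈ K, X ≠ Y ∧ Joined src dst X Y

/-- From every family of pairwise disjoint sets with exactly three boundary edges, none of them in `F`,
one can delete at most `σ` members such that two of any `a + 1` of the other members are joined by an
edge. -/
def FamilyCondition [DecidableEq V] [Fintype E] (src dst : E → V) (F : Finset E) (a σ : ℕ) : Prop :=
  ∀ I : Finset (Finset V), (∀ X ∈ I, ThreeSet src dst F X) →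
    (∀ X ∈ I, ∀ Y ∈ I, X ≠ Y → Disjoint X Y) →
    ∃ J ⊆ I, J.card ≤ σ ∧ FewIndependent src dst a (I \ J)

/-- Two of any `a + 1` pairwise disjoint sets of vertices outside `S` with exactly three boundary
edges, none of them in `F`, are joined by an edge. -/
def OutsideCondition [DecidableEq V] [Fintype E] (src dst : E → V) (F : Finset E) (a : ℕ)
    (S : Finset V) : Prop :=
  ∀ K : Finset (Finset V), (∀ X ∈ K, ThreeSet src dst F X ∧ Disjoint X S) →
    (∀ X ∈ K, ∀ Y ∈ K, X ≠ Y → Disjoint X Y) → K.card = a + 1 →
    ∃ X ∈ K, ∃ Y ∈ K, X ≠ Y ∧ Joined src dst X Y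

/-- The number of the components of the graph with the vertices `V` and the edges `A`. -/
noncomputable def components (src dst : E → V) (A : Finset E) : ℕ :=
  Nat.card (SimpleGraph.fromRel
    (fun u v : V => ∃ e ∈ A, src e = u ∧ dst e = v)).ConnectedComponent

/-- The rank of `A` in the cycle matroid of the graph. -/
noncomputable def cycleRank [Fintype V] (src dst : E → V) (A : Finset E) : ℕ :=
  Fintype.card V - components src dst A

/-- The rank of `A` in the bond matroid of the graph (the dual of the cycle matroid). -/
noncomputable def bondRank [Fintype V] [Fintype E] [DecidableEq E] (src dst : E → V)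
    (A : Finset E) : ℕ :=
  A.card + cycleRank src dst Aᶜ - cycleRank src dst Finset.univ

/-- The characteristic polynomial of the bond matroid at the integer `x`. -/
noncomputable def bondCharPoly [Fintype V] [Fintype E] [DecidableEq E] (src dst : E → V)
    (x : ℤ) : ℤ :=
  ∑ A : Finset E, (-1) ^ A.card * x ^ (bondRank src dst Finset.univ - bondRank src dst A)

theorem isFlow_iff [DecidableEq V] [Fintype E] (src dst : E → V) (f : E → ℤ) :
    IsFlow src dst f ↔
      ∀ v, ∑ e, f e * ((if src e = v then 1 else 0) - (if dst e = v then 1 else 0)) = 0 := by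
  unfold IsFlow
  refine forall_congr' fun v => ?_
  rw [Finset.sum_filter, Finset.sum_filter, ← sub_eq_zero, ← Finset.sum_sub_distrib]
  have : ∀ e, (if src e = v then f e else 0) - (if dst e = v then f e else 0)
      = f e * ((if src e = v then 1 else 0) - (if dst e = v then 1 else 0)) := by
    intro e
    by_cases h1 : src e = v <;> by_cases h2 : dst e = v <;> simp [h1, h2]
  rw [Finset.sum_congr rfl (fun e _ => this e)]

theorem nzf [Fintype V] [DecidableEq V] [Fintype E] [DecidableEq E] (src dst : E → V)
    (h : Pool.Agent.TH676.Z.FlowOn src dst ∅ ∅) : NZF src dst := by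
  obtain ⟨f, h1, _, h3⟩ := h
  refine ⟨f, fun e => h3 e (Finset.notMem_empty _) (Finset.notMem_empty _), fun x => ?_⟩
  rw [← h1 x]
  unfold Pool.Agent.TH676.Z.bd
  refine Finset.sum_congr rfl fun e _ => ?_
  unfold ic
  by_cases h4 : src e = x <;> by_cases h5 : dst e = x <;> simp [h4, h5]

theorem charPoly_pos [Fintype V] [DecidableEq V] [Fintype E] [DecidableEq E] (src dst : E → V)
    (f : E → ℤ) (h1 : IsFlow src dst f) (h2 : ∀ e, 1 ≤ |f e| ∧ |f e| ≤ 4) (q : ℕ) (hq : 5 ≤ q) :
    0 < bondCharPoly src dst q :=
  Pool.Agent.TH362.FP.chr_pos src dst f h2 h1 q hq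

/-- the reduction modulo five of a flow with values in `{0, 1, -1}` -/
theorem mod5 [Fintype V] [DecidableEq V] [Fintype E] [DecidableEq E] (src dst : E → V)
    (C : Finset E) (h : ∃ z : E → ℤ, IsFlow src dst z ∧ (∀ e, z e = 0 ∨ z e = 1 ∨ z e = -1) ∧
      ∀ e, z e ≠ 0 ↔ e ∈ C) :
    ∃ z : E → ZMod 5, (∀ v, Pool.Agent.TH676.Z.bd src dst z v = 0) ∧
      (∀ e, z e = 0 ∨ z e = 1 ∨ z e = -1) ∧ ∀ e, z e ≠ 0 ↔ e ∈ C := by
  obtain ⟨z, h1, h2, h3⟩ := h
  refine ⟨fun e => ((z e : ℤ) : ZMod 5), fun v => ?_, fun e => ?_, fun e => ?_⟩
  · have h4 := h1 v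
    rw [Finset.sum_filter, Finset.sum_filter, ← sub_eq_zero, ← Finset.sum_sub_distrib] at h4
    have h5 := congrArg (fun t : ℤ => (t : ZMod 5)) h4
    simp only [Int.cast_sum, Int.cast_sub, Int.cast_zero] at h5
    refine Eq.trans ?_ h5
    unfold Pool.Agent.TH676.Z.bd
    rw [Finset.sum_sub_distrib, Finset.sum_sub_distrib]
    congr 1 <;>
    · refine Finset.sum_congr rfl fun e _ => ?_
      split_ifs <;> simp
  · rcases h2 e with h | h | h <;> simp [h]
  · rw [← h3 e]
    have h10 : (1 : ZMod 5) ≠ 0 := by decide
    rcases h2 e with h | h | h <;> simp [h, h10]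

/-- the flow -/
theorem main [Fintype V] [DecidableEq V] [Fintype E] [DecidableEq E] (src dst : E → V)
    (m : ℕ) (C : Fin m → Finset E)
    (hb : ∀ Y : Finset V, (boundary src dst Y).card ≠ 1)
    (hC : ∀ i, ∃ z : E → ℤ, IsFlow src dst z ∧ (∀ e, z e = 0 ∨ z e = 1 ∨ z e = -1) ∧
      ∀ e, z e ≠ 0 ↔ e ∈ C i)
    (hnew : ∀ i, (C i \ (Finset.univ.filter (fun j => j < i)).biUnion C).card ≤ 11)
    (a σ : ℕ) (h1 : 2 * a + σ ≤ 125) (h2 : 3 * a + σ ≤ 150)
    (h : FamilyCondition src dst (Finset.univ.biUnion C) a σ) :
    (∃ f : E → ℤ, IsFlow src dst f ∧ ∀ e, 1 ≤ |f e| ∧ |f e| ≤ 4) ∧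
      ∀ q : ℕ, 5 ≤ q → 0 < bondCharPoly src dst q := by
  have h3 := Pool.Agent.N410.FV.flow_thin Pool.Agent.Y335.FL.quot' Pool.Agent.Y335.FL.contract_all
    Pool.Agent.Y335.FL.ahl src dst (Finset.univ.biUnion C)
    (fun Y _ => by rw [Finset.sdiff_empty]; exact hb Y) a σ h1 h2 (by
      intro I hI hdis
      obtain ⟨J, hJ, hJc, hK⟩ := h I hI hdis
      refine ⟨J, hJ, hJc, fun K hKI hKc => ?_⟩
      obtain ⟨X, hX, Y, hY, hXY, e, he | he⟩ := hK K hKI hKc
      · exact ⟨X, hX, Y, hY, hXY, e, he⟩
      · exact ⟨Y, hY, X, hX, hXY.symm, e, he⟩)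
  have hfl := Pool.Agent.Y335.FL.lift_all V E src dst m C (fun i => mod5 src dst (C i) (hC i)) hnew h3
  obtain ⟨F, hF, hF0⟩ := int_flow src dst (nzf src dst hfl)
  have hF1 := (isFlow_iff src dst F).mpr hF0
  exact ⟨⟨F, hF1, hF⟩, fun q hq => charPoly_pos src dst F hF1 hF q hq⟩

/-- the members of a family of disjoint sets which meet `S` -/
theorem family_of_outside [Fintype V] [DecidableEq V] [Fintype E] [DecidableEq E] (src dst : E → V)
    (F : Finset E) (a : ℕ) (S : Finset V) (h : OutsideCondition src dst F a S) :
    FamilyCondition src dst F a S.card := by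
  intro I hI hdis
  refine ⟨I.filter (fun X => ¬ Disjoint X S), Finset.filter_subset _ _, ?_, ?_⟩
  · calc (I.filter (fun X => ¬ Disjoint X S)).card
        = ∑ _X ∈ I.filter (fun X => ¬ Disjoint X S), 1 := by simp
      _ ≤ ∑ X ∈ I.filter (fun X => ¬ Disjoint X S), (X ∩ S).card := by
          refine Finset.sum_le_sum fun X hX => ?_
          have h1 := (Finset.mem_filter.1 hX).2
          rw [Finset.not_disjoint_iff] at h1
          obtain ⟨v, hv, hvS⟩ := h1
          exact Finset.card_pos.2 ⟨v, Finset.mem_inter.2 ⟨hv, hvS⟩⟩
      _ = ((I.filter (fun X => ¬ Disjoint X S)).biUnion (fun X => X ∩ S)).card := by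
          rw [Finset.card_biUnion]
          intro X hX Y hY hXY
          exact (hdis X (Finset.mem_filter.1 hX).1 Y (Finset.mem_filter.1 hY).1 hXY).mono
            Finset.inter_subset_left Finset.inter_subset_left
      _ ≤ S.card := Finset.card_le_card (Finset.biUnion_subset.2 fun X _ => Finset.inter_subset_right)
  · intro K hK hKc
    refine h K (fun X hX => ?_) (fun X hX Y hY hXY => ?_) hKc
    · obtain ⟨h1, h2⟩ := Finset.mem_sdiff.1 (hK hX)
      refine ⟨hI X h1, ?_⟩
      by_contra h3
      exact h2 (Finset.mem_filter.2 ⟨h1, h3⟩)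
    · exact hdis X (Finset.mem_sdiff.1 (hK hX)).1 Y (Finset.mem_sdiff.1 (hK hY)).1 hXY

/-- Let `src dst : E → V` be a bridgeless multigraph, let `C` be a chain of cycles each of which has at
most eleven edges outside of the union of the earlier ones (for instance the empty chain), and let
`2 a + σ ≤ 125` and `3 a + σ ≤ 150` (for instance `a = 50` and `σ = 0`).  If

(1) from every family of pairwise disjoint sets of vertices with exactly three boundary edges, none of
them in the chain, one can delete at most `σ` members such that two of any `a + 1` of the other members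
are joined by an edge, or

(2) there is a set `S` of `σ` vertices such that two of any `a + 1` pairwise disjoint sets of vertices
outside `S` with exactly three boundary edges, none of them in the chain, are joined by an edge (a
special case of (1)),

then the graph has a nowhere-zero 5-flow, and the characteristic polynomial of the bond matroid is
positive at all integers `q ≥ 5`. -/
theorem result :
    ∀ (V E : Type) [Fintype V] [DecidableEq V] [Fintype E] [DecidableEq E] (src dst : E → V)
      (m : ℕ) (C : Fin m → Finset E),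
      (∀ Y : Finset V, (boundary src dst Y).card ≠ 1) →
      (∀ i, ∃ z : E → ℤ, IsFlow src dst z ∧ (∀ e, z e = 0 ∨ z e = 1 ∨ z e = -1) ∧
        ∀ e, z e ≠ 0 ↔ e ∈ C i) →
      (∀ i, (C i \ (Finset.univ.filter (fun j => j < i)).biUnion C).card ≤ 11) →
      ∀ (a σ : ℕ), 2 * a + σ ≤ 125 → 3 * a + σ ≤ 150 →
      (FamilyCondition src dst (Finset.univ.biUnion C) a σ ∨
        ∃ S : Finset V, S.card = σ ∧ OutsideCondition src dst (Finset.univ.biUnion C) a S) →
      (∃ f : E → ℤ, IsFlow src dst f ∧ ∀ e, 1 ≤ |f e| ∧ |f e| ≤ 4) ∧
      ∀ q : ℕ, 5 ≤ q → 0 < bondCharPoly src dst q := by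
  intro V E _ _ _ _ src dst m C hb hC hnew a σ h1 h2 h
  refine main src dst m C hb hC hnew a σ h1 h2 ?_
  rcases h with h | ⟨S, hS, h⟩
  · exact h
  · rw [← hS]
    exact family_of_outside src dst _ a S h

/-- Consequence: two of any 51 pairwise disjoint sets of vertices with exactly three boundary edges are
joined by an edge. -/
theorem fifty_one (V E : Type) [Fintype V] [DecidableEq V] [Fintype E] [DecidableEq E]
    (src dst : E → V) (hb : ∀ Y : Finset V, (boundary src dst Y).card ≠ 1)
    (h : ∀ K : Finset (Finset V), (∀ X ∈ K, (boundary src dst X).card = 3) →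
      (∀ X ∈ K, ∀ Y ∈ K, X ≠ Y → Disjoint X Y) → K.card = 51 →
      ∃ X ∈ K, ∃ Y ∈ K, X ≠ Y ∧ Joined src dst X Y) :
    ∃ f : E → ℤ, IsFlow src dst f ∧ ∀ e, 1 ≤ |f e| ∧ |f e| ≤ 4 :=
  (result V E src dst 0 (fun _ => ∅) hb (fun i => i.elim0) (fun i => i.elim0) 50 0 (by norm_num)
    (by norm_num) (Or.inr ⟨∅, rfl, fun K h1 h2 h3 => h K (fun X hX => (h1 X hX).1.1) h2 h3⟩)).1

end Pool.Agent.Results.MP_c8786f_co.IndependentThreeCuts
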