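import Mathlib
import Pool.Agent.TH497.PW.IntFlow
import Pool.Agent.TH362.FP.Pos
import Pool.Agent.Y335.FL.Main
import Pool.Agent.N410.FV.Deg

set_option autoImplicit false

/-!
# Nowhere-zero 5-flows: graphs without 126 disjoint sets with three boundary edges (MP_c8786f_co)

Let `G` be a bridgeless multigraph which does not contain 126 pairwise disjoint sets of vertices with
exactly three boundary edges each.  Then `G` has a nowhere-zero 5-flow, and the characteristic
polynomial of its bond matroid is positive at all integers `q ≥ 5`.  The order of `G`, the number of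
its vertices of degree three, its connectivity and its degrees are not bounded.

More generally it is sufficient that every partition of the vertex set into `k` classes with at least
three boundary edges each, of which at least 126 have exactly three boundary edges, has at least
`5 (k - 1) / 3` crossing edges.  (A graph with two disjoint spanning trees has at least `2 (k - 1)`
crossing edges for all partitions.)  And only the partitions and sets are needed without crossing edges
and boundary edges in the union `F` of a chain of cycles each of which has at most eleven edges outside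
of the union of the earlier ones.

Special cases: at most 125 vertices of odd degree; all edge cuts with three edges are of the form
`δ(v)` with at most 125 vertices `v`; every vertex has at least `k ≥ 4` different neighbours, and there
are at most `126 k + 125` vertices (part (3); the starting result `DegreeWeights` needs at most
`126 (k - 2) - 1` vertices).  For Tutte's 12-cage there are 126 disjoint sets.

Proof.  The edges of `F` are contracted (library `Y335/FL`).  Let `H` be a quotient of `G` without
nowhere-zero 5-flow all of whose proper quotients have such flows.  Circuits with at most eleven edges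
can be contracted (library `Y335/FL`), and so can one of two edges which form a cut; hence `H` has
girth at least twelve, and its degrees are at least three (apart from isolated vertices).

(1) A set of `k ≥ 2` vertices of `H` spans at most `(5 k - 6) / 3` edges: otherwise let `X` be a
smallest set for which this fails.  Then every partition of `X` into `c` classes has at least
`5 (c - 1) / 3` crossing edges, and by the covering theorem of the starting library
(`H239R2/Cover`, `H170/Reg`) the subgraph spanned by `X` is `Z_5`-connected and can be contracted.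

(2) So the average degree of the `N` vertices of `H` which are not isolated is `1 + x` with
`2 ≤ x < 7 / 3`.  By the Moore bound for irregular graphs (Alon, Hoory, Linial; library `Y335/FL`)
`N ≥ 2 (1 + x + ... + x ^ 5)`.  At least `(3 - x) N` vertices have degree three, and
`2 (3 - x) (1 + x + ... + x ^ 5) ≥ 126`.  The classes of these vertices are 126 disjoint sets of
vertices of `G` with three boundary edges, and the classes of `H` form a partition with too few
crossing edges.
-/

namespace Pool.Agent.Results.MP_c8786f_co.ThreeCutPacking

open Pool.Agent.TH497.PW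

variable {V E : Type}

/-- The edges with exactly one end in `X`. -/
def boundary [DecidableEq V] [Fintype E] (src dst : E → V) (X : Finset V) : Finset E :=
  Finset.univ.filter (fun e => ¬ (src e ∈ X ↔ dst e ∈ X))

/-- Kirchhoff's law. -/
def IsFlow [DecidableEq V] [Fintype E] (src dst : E → V) (f : E → ℤ) : Prop :=
  ∀ v : V, ∑ e ∈ Finset.univ.filter (fun e => src e = v), f e
    = ∑ e ∈ Finset.univ.filter (fun e => dst e = v), f e

/-- The `i`-th class of the partition `p`. -/
def part [Fintype V] {k : ℕ} (p : V → Fin k) (i : Fin k) : Finset V :=
  Finset.univ.filter (fun v => p v = i)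

/-- Every partition of the vertex set into `k` classes, such that no edge of `F` joins different
classes, every class has at least three boundary edges and at least 126 classes have exactly three
boundary edges, has at least `5 (k - 1) / 3` edges between different classes. -/
def ManyCrossing [Fintype V] [DecidableEq V] [Fintype E] (src dst : E → V) (F : Finset E) : Prop :=
  ∀ (k : ℕ) (p : V → Fin k), Function.Surjective p → (∀ e ∈ F, p (src e) = p (dst e)) →
    (∀ i, 3 ≤ (boundary src dst (part p i)).card) →
    126 ≤ (Finset.univ.filter (fun i => (boundary src dst (part p i)).card = 3)).card →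
    5 * k ≤ 3 * (Finset.univ.filter (fun e => p (src e) ≠ p (dst e))).card + 5

/-- There are 126 pairwise disjoint sets of vertices with exactly three boundary edges, none of them
in `F`. -/
def Packing126 [DecidableEq V] [Fintype E] (src dst : E → V) (F : Finset E) : Prop :=
  ∃ X : Fin 126 → Finset V, (∀ i j, i ≠ j → Disjoint (X i) (X j)) ∧
    ∀ i, (boundary src dst (X i)).card = 3 ∧ Disjoint (boundary src dst (X i)) F

/-- Every vertex has at least `k` different neighbours. -/
def Neighbours (src dst : E → V) (k : ℕ) : Prop :=
  ∀ v : V, ∃ W : Finset V, k ≤ W.card ∧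
    ∀ w ∈ W, w ≠ v ∧ ∃ e, (src e = v ∧ dst e = w) ∨ (src e = w ∧ dst e = v)

/-- The number of the components of the graph with the vertices `V` and the edges `A`. -/
noncomputable def components (src dst : E → V) (A : Finset E) : ℕ :=
  Nat.card (SimpleGraph.fromRel
    (fun u v : V => ∃ e ∈ A, src e = u ∧ dst e = v)).ConnectedComponent

/-- The rank of `A` in the cycle matroid of the graph. -/
noncomputable def cycleRank [Fintype V] (src dst : E → V) (A : Finset E) : ℕ :=
  Fintype.card V - components src dst A

/-- The rank of `A` in the bond matroid of the graph (the dual of the cycle matroid). -/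
noncomputable def bondRank [Fintype V] [Fintype E] [DecidableEq E] (src dst : E → V)
    (A : Finset E) : ℕ :=
  A.card + cycleRank src dst Aᶜ - cycleRank src dst Finset.univ

/-- The characteristic polynomial of the bond matroid at the integer `x`. -/
noncomputable def bondCharPoly [Fintype V] [Fintype E] [DecidableEq E] (src dst : E → V)
    (x : ℤ) : ℤ :=
  ∑ A : Finset E, (-1) ^ A.card * x ^ (bondRank src dst Finset.univ - bondRank src dst A)

theorem isFlow_iff [DecidableEq V] [Fintype E] (src dst : E → V) (f : E → ℤ) :
    IsFlow src dst f ↔
      ∀ v, ∑ e, f e * ((if src e = v then 1 else 0) - (if dst e = v then 1 else 0)) = 0 := by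
  unfold IsFlow
  refine forall_congr' fun v => ?_
  rw [Finset.sum_filter, Finset.sum_filter, ← sub_eq_zero, ← Finset.sum_sub_distrib]
  have : ∀ e, (if src e = v then f e else 0) - (if dst e = v then f e else 0)
      = f e * ((if src e = v then 1 else 0) - (if dst e = v then 1 else 0)) := by
    intro e
    by_cases h1 : src e = v <;> by_cases h2 : dst e = v <;> simp [h1, h2]
  rw [Finset.sum_congr rfl (fun e _ => this e)]

theorem nzf [Fintype V] [DecidableEq V] [Fintype E] [DecidableEq E] (src dst : E → V)
    (h : Pool.Agent.TH676.Z.FlowOn src dst ∅ ∅) : NZF src dst := by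
  obtain ⟨f, h1, _, h3⟩ := h
  refine ⟨f, fun e => h3 e (Finset.notMem_empty _) (Finset.notMem_empty _), fun x => ?_⟩
  rw [← h1 x]
  unfold Pool.Agent.TH676.Z.bd
  refine Finset.sum_congr rfl fun e _ => ?_
  unfold ic
  by_cases h4 : src e = x <;> by_cases h5 : dst e = x <;> simp [h4, h5]

theorem charPoly_pos [Fintype V] [DecidableEq V] [Fintype E] [DecidableEq E] (src dst : E → V)
    (f : E → ℤ) (h1 : IsFlow src dst f) (h2 : ∀ e, 1 ≤ |f e| ∧ |f e| ≤ 4) (q : ℕ) (hq : 5 ≤ q) :
    0 < bondCharPoly src dst q :=
  Pool.Agent.TH362.FP.chr_pos src dst f h2 h1 q hq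

/-- the reduction modulo five of a flow with values in `{0, 1, -1}` -/
theorem mod5 [Fintype V] [DecidableEq V] [Fintype E] [DecidableEq E] (src dst : E → V)
    (C : Finset E) (h : ∃ z : E → ℤ, IsFlow src dst z ∧ (∀ e, z e = 0 ∨ z e = 1 ∨ z e = -1) ∧
      ∀ e, z e ≠ 0 ↔ e ∈ C) :
    ∃ z : E → ZMod 5, (∀ v, Pool.Agent.TH676.Z.bd src dst z v = 0) ∧
      (∀ e, z e = 0 ∨ z e = 1 ∨ z e = -1) ∧ ∀ e, z e ≠ 0 ↔ e ∈ C := by
  obtain ⟨z, h1, h2, h3⟩ := h
  refine ⟨fun e => ((z e : ℤ) : ZMod 5), fun v => ?_, fun e => ?_, fun e => ?_⟩
  · have h4 := h1 v
    rw [Finset.sum_filter, Finset.sum_filter, ← sub_eq_zero, ← Finset.sum_sub_distrib] at h4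
    have h5 := congrArg (fun t : ℤ => (t : ZMod 5)) h4
    simp only [Int.cast_sum, Int.cast_sub, Int.cast_zero] at h5
    refine Eq.trans ?_ h5
    unfold Pool.Agent.TH676.Z.bd
    rw [Finset.sum_sub_distrib, Finset.sum_sub_distrib]
    congr 1 <;>
    · refine Finset.sum_congr rfl fun e _ => ?_
      split_ifs <;> simp
  · rcases h2 e with h | h | h <;> simp [h]
  · rw [← h3 e]
    have h10 : (1 : ZMod 5) ≠ 0 := by decide
    rcases h2 e with h | h | h <;> simp [h, h10]

/-- the flow -/
theorem main [Fintype V] [DecidableEq V] [Fintype E] [DecidableEq E] (src dst : E → V)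
    (m : ℕ) (C : Fin m → Finset E)
    (hb : ∀ Y : Finset V, (boundary src dst Y).card ≠ 1)
    (hC : ∀ i, ∃ z : E → ℤ, IsFlow src dst z ∧ (∀ e, z e = 0 ∨ z e = 1 ∨ z e = -1) ∧
      ∀ e, z e ≠ 0 ↔ e ∈ C i)
    (hnew : ∀ i, (C i \ (Finset.univ.filter (fun j => j < i)).biUnion C).card ≤ 11)
    (h : ManyCrossing src dst (Finset.univ.biUnion C)) :
    (∃ f : E → ℤ, IsFlow src dst f ∧ ∀ e, 1 ≤ |f e| ∧ |f e| ≤ 4) ∧
      ∀ q : ℕ, 5 ≤ q → 0 < bondCharPoly src dst q := by
  have h1 := Pool.Agent.N410.FV.flow Pool.Agent.Y335.FL.quot' Pool.Agent.Y335.FL.contract_all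
    Pool.Agent.Y335.FL.ahl src dst (Finset.univ.biUnion C)
    (fun Y _ => by rw [Finset.sdiff_empty]; exact hb Y) h
  have hfl := Pool.Agent.Y335.FL.lift_all V E src dst m C (fun i => mod5 src dst (C i) (hC i)) hnew h1
  obtain ⟨F, hF, hF0⟩ := int_flow src dst (nzf src dst hfl)
  have hF1 := (isFlow_iff src dst F).mpr hF0
  exact ⟨⟨F, hF1, hF⟩, fun q hq => charPoly_pos src dst F hF1 hF q hq⟩

/-- Let `src dst : E → V` be a bridgeless multigraph, and let `C` be a chain of cycles each of which
has at most eleven edges outside of the union of the earlier ones (for instance the empty chain).  If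

(1) every partition into classes with at least three boundary edges, of which at least 126 have exactly
three, and without crossing edges in the chain, has at least `5 (k - 1) / 3` crossing edges, or

(2) there are no 126 disjoint sets of vertices with three boundary edges, none of them in the chain
(a special case of (1)), or

(3) every vertex has at least `k ≥ 4` different neighbours and there are at most `126 k + 125` vertices
(a special case of (2)),

then the graph has a nowhere-zero 5-flow, and the characteristic polynomial of the bond matroid is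
positive at all integers `q ≥ 5`. -/
theorem result :
    ∀ (V E : Type) [Fintype V] [DecidableEq V] [Fintype E] [DecidableEq E] (src dst : E → V)
      (m : ℕ) (C : Fin m → Finset E),
      (∀ Y : Finset V, (boundary src dst Y).card ≠ 1) →
      (∀ i, ∃ z : E → ℤ, IsFlow src dst z ∧ (∀ e, z e = 0 ∨ z e = 1 ∨ z e = -1) ∧
        ∀ e, z e ≠ 0 ↔ e ∈ C i) →
      (∀ i, (C i \ (Finset.univ.filter (fun j => j < i)).biUnion C).card ≤ 11) →
      (ManyCrossing src dst (Finset.univ.biUnion C) ∨
        ¬ Packing126 src dst (Finset.univ.biUnion C) ∨
        ∃ k, 4 ≤ k ∧ Neighbours src dst k ∧ Fintype.card V < 126 * (k + 1)) →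
      (∃ f : E → ℤ, IsFlow src dst f ∧ ∀ e, 1 ≤ |f e| ∧ |f e| ≤ 4) ∧
      ∀ q : ℕ, 5 ≤ q → 0 < bondCharPoly src dst q := by
  intro V E _ _ _ _ src dst m C hb hC hnew h
  refine main src dst m C hb hC hnew ?_
  rcases h with h | h | ⟨k, h4, hk, hn⟩
  · exact h
  · refine Pool.Agent.N410.FV.large_of_packing src dst _ fun X hX => ?_
    by_contra hcon
    push Not at hcon
    exact h ⟨X, hX, fun i => ⟨(hcon i).2, (hcon i).1⟩⟩
  · refine Pool.Agent.N410.FV.large_of_packing src dst _ fun X hX => ?_
    obtain ⟨i, hi⟩ := Pool.Agent.N410.FV.no_packing h4 hk hn X hX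
    exact ⟨i, Or.inr hi⟩

end Pool.Agent.Results.MP_c8786f_co.ThreeCutPacking
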